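import Pool.Agent.H77.BD.Targets

/-!
The bracket.
-/

set_option autoImplicit false

open Set Matrix Pool.Agent.H77.BC Pool.Agent.H77.BD

namespace Pool.Agent.H78.BCT

theorem pf_BRB : T_BRB := by
  classical
  intro l C hC F _
  have _ := finRoot hC
  have _ := Fintype.ofFinite (Root C)
  refine ⟨fun γ w => ?_, fun h w => ?_, fun u v w => ?_, fun a v w => ?_, fun v => ?_⟩
  · refine Prod.ext ?_ ?_
    · funext δ
      simp only [br, nf, eb]
      rw [finsum_eq_single _ γ (fun β hβ => by rw [if_neg hβ, zero_mul]), if_pos rfl, one_mul,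
        pr_zero, zero_mul, add_zero]
      by_cases h : δ = γ
      · rw [if_pos h, if_pos h, mul_one, sub_eq_add_neg, h]
      · rw [if_neg h, if_neg h, mul_zero, sub_zero, add_zero]
    · funext i
      simp only [br, nf, eb]
      rw [finsum_eq_single _ γ (fun β hβ => by rw [if_neg hβ, zero_mul, zero_mul]), if_pos rfl,
        one_mul]
  · refine Prod.ext ?_ ?_
    · funext δ
      simp only [br, ah, hb, Pi.zero_apply, zero_mul, finsum_zero, mul_zero, sub_zero, zero_add]
    · funext i
      simp only [br, ah, hb, Pi.zero_apply, zero_mul, finsum_zero, neg_zero]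
  · refine Prod.ext ?_ ?_
    · funext δ
      simp only [br, Prod.fst_add, Prod.snd_add, Pi.add_apply, pr_add, add_mul,
        finsum_eq_sum_of_fintype, Finset.sum_add_distrib]
      ring
    · funext i
      simp only [br, Prod.fst_add, Prod.snd_add, Pi.add_apply, add_mul,
        finsum_eq_sum_of_fintype, Finset.sum_add_distrib]
      ring
  · refine Prod.ext ?_ ?_
    · funext δ
      simp only [br, Prod.smul_fst, Prod.smul_snd, Pi.smul_apply, smul_eq_mul, pr_smul,
        finsum_eq_sum_of_fintype, mul_assoc a, ← Finset.mul_sum]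
      ring
    · funext i
      simp only [br, Prod.smul_fst, Prod.smul_snd, Pi.smul_apply, smul_eq_mul,
        finsum_eq_sum_of_fintype, mul_assoc a, ← Finset.mul_sum]
      ring
  · rw [finsum_eq_sum_of_fintype]
    refine Prod.ext ?_ ?_
    · funext δ
      rw [Prod.fst_add, Pi.add_apply, Prod.fst_sum, Finset.sum_apply,
        Finset.sum_eq_single δ]
      · simp [hb, eb]
      · intro γ _ hγ
        simp [eb, Ne.symm hγ]
      · intro h
        exact (h (Finset.mem_univ _)).elim
    · funext i
      rw [Prod.snd_add, Pi.add_apply, Prod.snd_sum, Finset.sum_apply,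
        Finset.sum_eq_zero]
      · simp [hb]
      · intro γ _
        simp [eb]

end Pool.Agent.H78.BCT
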