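import Pool.Agent.H77.BD.Targets

/-!
Translations of the big cell.
-/

set_option autoImplicit false

open Set Matrix Pool.Agent.H77.BC Pool.Agent.H77.BD

namespace Pool.Agent.H78.BCT

theorem pf_OMS {M : Type} (U : RU M) (hRKA : RKA U) (hRKB : RKB U) (hOMB : T_OMB) (hUPN : T_UPN U)
    (hUIR : T_UIR U) (hTRK : T_TRK U) (hOMD : T_OMD U) : T_OMS U := by
  intro l C hC F Γ _ _ _ _ _ _ _ x τ hcd hx i t
  refine ⟨fun hne => ?_, fun hne => ?_⟩
  · exfalso
    obtain ⟨z, hz1, hz2⟩ := hne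
    exact hz2 (hOMB hC hcd i t z hz1).1
  · obtain ⟨z₀, hz0, hz0'⟩ := hne
    rcases (hOMB hC hcd i t z₀ hz0).2 with h | ⟨s₀, hs0, -⟩
    · exact (hz0' h).elim
    have ht : t ≠ 0 := by
      intro h
      rw [h, mul_zero, sub_zero] at hs0
      exact one_ne_zero hs0
    obtain ⟨hOD, hOR⟩ := hOMD hC hcd hx
    obtain ⟨hPD, hND, -, hAD⟩ := hUPN hC hcd hx
    have hTD := (hTRK hC hcd hx).1
    have hAR := hUIR hC hcd hx i
    have hA := hAD i
    set A : Set Γ := (Ug x (fun β => IsPos β ∧ β.1 ≠ si i) : Set Γ) with hAdef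
    set N : Set Γ := (Ug x IsNeg : Set Γ) with hNdef
    set T : Set Γ := range τ with hTdef
    let f : Γ × (Γ × Γ) → Γ := fun p => p.1 * p.2.1 * (p.2.2 * x (sr hC i) s₀)
    have hf : DFn U f := DFn_gmul (DFn_gmul DFn_fst (DFn_comp DFn_fst DFn_snd))
      (DFn_gmul (DFn_comp DFn_snd DFn_snd) (DFn_const _))
    have hNn : N.Nonempty := ⟨1, Subgroup.one_mem _⟩
    have hTn : T.Nonempty := ⟨1, 1, map_one τ⟩
    have hAn : A.Nonempty := ⟨1, Subgroup.one_mem _⟩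
    have hBD : U.D (N ×ˢ (T ×ˢ A)) := D_prod hND (D_prod hTD hA)
    have hBn : (N ×ˢ (T ×ˢ A)).Nonempty := hNn.prod (hTn.prod hAn)
    have hBR : U.R (N ×ˢ (T ×ˢ A)) = U.R N + (U.R T + U.R A) := by
      rw [hRKB.prod hND (D_prod hTD hA) hNn (hTn.prod hAn), hRKB.prod hTD hA hTn hAn]
    have hfR : U.R (f '' (N ×ˢ (T ×ˢ A))) ≤ U.R N + (U.R T + U.R A) := by
      have h := hRKB.fib_ge (n := 0) hBD hf hBn (fun b _ => Nat.zero_le _)
      rw [hBR] at h
      simpa using h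
    have hED : U.D {z | z ∈ Om x τ ∧ z * x (ng (sr hC i)) t ∉ Om x τ} := by
      have h1 : U.D ((fun z => z * x (ng (sr hC i)) t) ⁻¹' Om x τ) :=
        DFn_preim (DFn_gmul DFn_id (DFn_const _)) hOD
      exact D_diff hOD h1
    have hsub : {z | z ∈ Om x τ ∧ z * x (ng (sr hC i)) t ∉ Om x τ} ⊆
        f '' (N ×ˢ (T ×ˢ A)) := by
      rintro z ⟨hz1, hz2⟩
      rcases (hOMB hC hcd i t z hz1).2 with h | ⟨s, hs, v, hv, c, u, hu, e⟩
      · exact (hz2 h).elim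
      · have hss : s = s₀ := by
          have h1 : (s - s₀) * t = 0 := by linear_combination hs0 - hs
          rcases mul_eq_zero.1 h1 with h2 | h2
          · exact sub_eq_zero.1 h2
          · exact (ht h2).elim
        refine ⟨(v, (τ c, u)), ⟨hv, ⟨c, rfl⟩, hu⟩, ?_⟩
        rw [e, hss]
    have h1 := hRKA.mono hED (DFn_image hf hBD) ⟨z₀, hz0, hz0'⟩ hsub
    rw [hOR]
    omega

end Pool.Agent.H78.BCT
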